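import Pool.Agent.N876.CG.RelApp
import Pool.Agent.N876.CG.RankT
import Pool.Agent.W484.CK.Main
import Pool.Agent.N876.HM1.Defs

/-!
# Proof of `MP_7923e9_ag.HyperplaneCoverings`
-/

set_option autoImplicit false

open Finset Polynomial CategoryTheory AlgebraicGeometry

namespace Pool.Agent.N876.HM1

open Pool.Agent.H914 Pool.Agent.H914.VarClass Pool.Agent.H914.VarClass.Obj Pool.Agent.W492.BB
  Pool.Agent.W484.CK

variable {κ : Type} [Field κ]

theorem main (c : ℕ) [Fact c.Prime] (κ : Type) [Field κ] [Fintype κ] [CharP κ c] {ι : Type}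
    (C : ι → Covering κ) (f N lam : ℕ) (hC : IsSmallSystem C c f N lam)
    {𝒱 : VarClass κ} (A : TheoryData.{0, 0, 0} 𝒱 ℚ) [IsChow A] {K : Type} [Field K]
    [IsAlgClosed K] [CharZero K] (H : WeilTheoryData.{0, 0, 0} A K) [IsWeil H] (τ : K →+* ℂ)
    (F : ∀ X : 𝒱.Obj, X ⟶ X) (X : ι → 𝒱.Obj) (Z : 𝒱.Obj) (χ : ℚ[X])
    (h : IsCoveringSystem C N lam H τ F X Z χ)
    (hnil : ∀ L : List ι, L.Nodup → Nilpotence H (productOf X Z L))
    (L : List ι) (hL : L.Nodup) :
    ∃ (J : Type) (_ : Fintype J) (deg : J → ℕ), (∀ j, deg j ≤ dimension X L) ∧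
      (∀ l ≤ dimension X L, ∃ j, deg j = l) ∧
      ∀ (T : MotivicData A) (φ : ∀ X, T.M X →ₗ[ℚ] T.M X),
        IsRelative T φ F (Fintype.card κ) χ → ∀ e : ℕ,
        Conclusions T e (productOf X Z L) Z (dimension X L) deg := by
  obtain ⟨hf, hC, hN, hdN, hsmall⟩ := hC
  obtain ⟨hstd, hfrob, hprod, hmodel, hpol, halg, hχ0, hbase⟩ := h
  have hfin := hstd.finite
  have hf0 : 0 < f := by
    rcases Nat.eq_zero_or_pos f with h | h
    · rw [h, pow_zero] at hf
      have := Fintype.one_lt_card (α := κ)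
      omega
    · exact h
  choose g T' hσT hgT hT' hcov hpure using hmodel
  have hsmall' : ∀ I : Finset ι, I.Nonempty → Pool.Agent.N876.UV.SmallI c f N lam
      (fun i => (C i).N) (fun i => (C i).n) (fun i => (C i).s) (fun i => (C i).a) I := by
    intro I hI j hj
    obtain ⟨u, hu, hlt⟩ := hsmall I hI j hj
    refine ⟨u, hu, Pool.Agent.N876.UV.weight_conv' hf0 hN hdN I
      (fun i => ∑ k, ∑ t ∈ range f, (u * j i * (C i).a k * c ^ t) % (C i).N) ?_⟩
    refine lt_of_le_of_lt (le_of_eq ?_) hlt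
    congr 1
    refine sum_congr rfl fun i _ => ?_
    unfold Covering.weight
    push_cast
    rfl
  have hcov' : ∀ i, Pool.Agent.N876.TC.IsCov (C i).N (C i).l (C i).a (C i).z
      ((ofHom (H.pull (F (X i)))).restrict (hσT i)) ((ofHom (H.pull (g i))).restrict (hgT i)) :=
    fun i => ⟨(hcov i).commute, (hcov i).order, (hcov i).invariants,
      fun L _ _ _ t => (hcov i).lefschetz L t⟩
  have hres : ∀ SZ, Pool.Agent.N876.FL.OtherOK τ (Fintype.card κ) N lam SZ →
      Pool.Agent.N876.FL.NoResF (Fintype.card κ : K)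
        (fun i => {α | Module.End.HasEigenvalue
          ((ofHom (H.pull (F (X i)))).restrict (hσT i)) α}) SZ :=
    fun SZ hSZ => Pool.Agent.N876.FL.nores_cov hN (fun i => (hC i).two_le) hdN κ hf
      (fun i => (hC i).root) (fun i => (C i).l) (fun i => (C i).a) (fun i => (hC i).coprime) τ
      hcov' hsmall' hpure hSZ
  have htw : ∀ L : List ι, productOf X Z L = Pool.Agent.N876.CG.tw X Z L := by
    intro L
    induction L with
    | nil => rfl
    | cons i L ih => rw [productOf, Pool.Agent.N876.CG.tw, ih]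
  have hdim : ∀ L : List ι, dimension X L = Pool.Agent.N876.CG.dims X L := by
    intro L
    induction L with
    | nil => rfl
    | cons i L ih => rw [dimension, Pool.Agent.N876.CG.dims, ih]
  have hq0 : Fintype.card κ ≠ 0 := Fintype.card_ne_zero
  have hsys : Pool.Agent.N876.CG.Cr H F (Fintype.card κ) X Z
      (fun i => {α | Module.End.HasEigenvalue
          ((ofHom (H.pull (F (X i)))).restrict (hσT i)) α}) {ρ | aeval ρ χ = 0} :=
    { std := isStandard_bridge hstd
      one_lt := Fintype.one_lt_card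
      frob := fun X => isFrobenius_bridge (hfrob X)
      prod := hprod
      cg := fun i => ⟨T' i, hσT i, hT' i, fun α hα => hα⟩
      int := fun i α hα => Pool.Agent.N876.CG.int_cov hN (fun i => (hC i).two_le) hdN κ hf
        (fun i => (hC i).root) (fun i => (C i).l) (fun i => (C i).a) (fun i => (hC i).coprime) τ
        hcov' hsmall' hpure i α hα
      ne := fun i α hα h0 => by
        have h1 := hpure i α hα
        rw [h0, map_zero, norm_zero, zero_pow two_ne_zero] at h1
        have h2 : (0 : ℝ) < (Fintype.card κ : ℝ) := by exact_mod_cast Nat.pos_of_ne_zero hq0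
        exact (pow_pos h2 _).ne h1
      intZ := fun β hβ => Pool.Agent.N876.CG.integral_of_emb τ (halg _ ⟨β, hβ, rfl⟩)
      res := by
        have himg : (τ '' {γ | ∃ β ρ, (Pool.Agent.W484.CH.frob H (F Z)).HasEigenvalue β ∧
            ρ ∈ {ρ : K | aeval ρ χ = 0} ∧ γ = β * ρ}) = productsOf (H.pull (F Z)) χ τ := by
          ext b
          constructor
          · rintro ⟨_, ⟨β, ρ, hβ, hρ, rfl⟩, rfl⟩
            exact ⟨β, ρ, hβ, hρ, rfl⟩
          · rintro ⟨β, ρ, hβ, hρ, rfl⟩
            exact ⟨_, ⟨β, ρ, hβ, hρ, rfl⟩, rfl⟩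
        refine hres _ ⟨?_, ?_⟩
        · rintro _ ⟨β, ρ, hβ, hρ, rfl⟩
          exact hbase.1 _ ⟨β, ρ, hβ, hρ, rfl⟩
        · rcases hbase.2 with h | h
          · left
            rw [himg]
            exact h
          · right
            rintro _ ⟨β, ρ, hβ, hρ, rfl⟩
            exact h _ ⟨β, ρ, hβ, hρ, rfl⟩
      res1 := hres _ (Pool.Agent.N876.FL.otherOK_one τ _ _ _) }
  obtain ⟨J, hJ, deg, hd1, hd2, hd3⟩ := hsys.equivQ hpol hL
  rw [hdim L, htw L]
  refine ⟨J, hJ, fun j => Pool.Agent.N876.CG.dims X L - deg j, fun j => Nat.sub_le _ _,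
    fun l hl => ?_, fun T φ hT e => ?_⟩
  · obtain ⟨j, hj⟩ := hd2 (Pool.Agent.N876.CG.dims X L - l) (Nat.sub_le _ _)
    exact ⟨j, by
      change Pool.Agent.N876.CG.dims X L - deg j = l
      omega⟩
  have hrel : Pool.Agent.N876.CG.RelTheory (toCorr T) φ F (Fintype.card κ) χ :=
    { corr := toCorr_isCorrTheory hT.motivic
      comm := hT.comm
      power := fun X n t ht => ⟨1, by
        rw [pow_one, LinearMap.sub_apply, Module.End.mul_apply, LinearMap.smul_apply,
          Module.End.one_apply, sub_eq_zero]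
        exact hT.power ht⟩
      poly := fun X n t ht => hT.root ht }
  have hnil' : ∀ L : List ι, L.Nodup →
      Pool.Agent.N876.CG.NilT H (toCorr T) (Pool.Agent.N876.CG.tw X Z L) := fun L hL =>
    Pool.Agent.N876.CG.nilT_of (toCorr_isCorrTheory hT.motivic) (by
      rw [← htw L]; exact nilpotence_bridge (hnil L hL))
  have hdimV : ∀ L : List ι, (Pool.Agent.N876.CG.tw X Z L).dim =
      Pool.Agent.N876.CG.dims X L + Z.dim := by
    intro L
    induction L with
    | nil => rw [Pool.Agent.N876.CG.tw, Pool.Agent.N876.CG.dims, Nat.zero_add]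
    | cons i L ih => rw [Pool.Agent.N876.CG.tw, Pool.Agent.N876.CG.dims, Obj.dim_prod, ih,
        Nat.add_assoc]
  have hiso : ∀ m : ℤ, Nonempty ((∀ j, homology T e Z (m -
      ((Pool.Agent.N876.CG.dims X L - deg j : ℕ) : ℤ))) ≃ₗ[ℚ]
      homology T e (Pool.Agent.N876.CG.tw X Z L) m) :=
    fun m => hd3 (toCorr T) φ χ hχ0 (fun ρ hρ => hρ) hrel hnil'
      ((Pool.Agent.N876.CG.tw X Z L).dim + e - m)
      (fun j => Z.dim + e - (m - ((Pool.Agent.N876.CG.dims X L - deg j : ℕ) : ℤ))) fun j => by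
        have h1 := hd1 j
        have h2 := hdimV L
        rw [h2]
        push_cast [h1]
        ring
  refine ⟨hiso, fun m => ?_⟩
  obtain ⟨E⟩ := hiso m
  constructor
  · intro h0 l hl1 hl2 x hx
    classical
    obtain ⟨j, hj⟩ := hd2 (Pool.Agent.N876.CG.dims X L - (m - l).toNat) (Nat.sub_le _ _)
    have h2 : m - ((Pool.Agent.N876.CG.dims X L - deg j : ℕ) : ℤ) = l := by
      rw [hj]; omega
    subst h2
    let y : ∀ j, homology T e Z (m - ((Pool.Agent.N876.CG.dims X L - deg j : ℕ) : ℤ)) :=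
      Pi.single j ⟨x, hx⟩
    have h3 : E y = 0 := Subtype.ext (h0 _ (E y).2)
    have h4 : y = 0 := E.injective (h3.trans (map_zero E).symm)
    have h5 := congrFun h4 j
    have h6 : y j = ⟨x, hx⟩ := Pi.single_eq_same j _
    rw [h6] at h5
    exact congrArg Subtype.val h5
  · intro h0 x hx
    have h1 : E.symm ⟨x, hx⟩ = 0 := by
      funext j
      have h2 := hd1 j
      exact Subtype.ext (h0 _ (by omega) (by omega) _ (E.symm ⟨x, hx⟩ j).2)
    have h3 := E.symm.injective (h1.trans (map_zero E.symm).symm)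
    exact congrArg Subtype.val h3

end Pool.Agent.N876.HM1
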